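import Pool.Agent.U29.DZ.Stm

set_option autoImplicit false

/-!
Package LLN of project DZ (helper689): the set of the perturbed points has density zero.
-/

namespace Pool.Agent.U689.DZ

open Finset MeasureTheory Filter ProbabilityTheory

theorem psum {p : ℤ → ℝ} (h1 : ∀ x, p x ≤ 1)
    (hp : Tendsto p cofinite (nhds 0)) {ε : ℝ} (hε : 0 < ε) :
    ∀ᶠ N : ℕ in atTop, ∑ x ∈ Icc (-(N : ℤ)) N, p x ≤ ε * N := by
  classical
  have hfin : {x | ¬ p x < ε / 4}.Finite := by
    have := hp.eventually_lt_const (show (0 : ℝ) < ε / 4 by positivity)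
    rwa [eventually_cofinite] at this
  obtain ⟨F, hF⟩ : ∃ F : Finset ℤ, F = hfin.toFinset := ⟨_, rfl⟩
  have hmem : ∀ x, x ∉ F → p x < ε / 4 := by
    intro x hx
    by_contra hcon
    apply hx
    rw [hF, Set.Finite.mem_toFinset]
    exact hcon
  filter_upwards [eventually_ge_atTop ⌈((F.card : ℝ) + ε / 4) * (2 / ε)⌉₊] with N hN
  have hN1 : ((F.card : ℝ) + ε / 4) * (2 / ε) ≤ N := Nat.ceil_le.1 hN
  have hN2 : (F.card : ℝ) + ε / 4 ≤ ε / 2 * N := by
    have h2 : ((F.card : ℝ) + ε / 4) = (((F.card : ℝ) + ε / 4) * (2 / ε)) * (ε / 2) := by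
      field_simp
    rw [h2]
    calc _ ≤ (N : ℝ) * (ε / 2) := mul_le_mul_of_nonneg_right hN1 (by positivity)
      _ = ε / 2 * N := by ring
  have h3 : ∑ x ∈ Icc (-(N : ℤ)) N, p x ≤
      ∑ x ∈ Icc (-(N : ℤ)) N, ((if x ∈ F then (1 : ℝ) else 0) + ε / 4) := by
    refine sum_le_sum fun x _ => ?_
    by_cases hx : x ∈ F
    · rw [if_pos hx]; linarith [h1 x]
    · rw [if_neg hx]; linarith [hmem x hx]
  have h4 : ∑ x ∈ Icc (-(N : ℤ)) N, (if x ∈ F then (1 : ℝ) else 0) ≤ F.card := by
    rw [sum_ite_mem, sum_const, nsmul_eq_mul, mul_one]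
    exact_mod_cast card_le_card inter_subset_right
  have h5 : ((Icc (-(N : ℤ)) N).card : ℝ) = 2 * N + 1 := by
    rw [Int.card_Icc]
    have : ((N : ℤ) + 1 - -(N : ℤ)).toNat = 2 * N + 1 := by omega
    rw [this]
    push_cast
    ring
  rw [sum_add_distrib, sum_const, nsmul_eq_mul, h5] at h3
  nlinarith

theorem lln (μ : ℤ → Measure ℤ) [∀ x, IsProbabilityMeasure (μ x)]
    (hμ : Tendsto (fun x => (μ x).real {0}) cofinite (nhds 1)) :
    ∀ᵐ ω ∂(Measure.infinitePi μ),
      Tendsto (fun N : ℕ => ({x : ℤ | |x| ≤ (N : ℤ) ∧ ω x ≠ 0}.ncard : ℝ) / N) atTop (nhds 0) := by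
  classical
  obtain ⟨p, hpd⟩ : ∃ p : ℤ → ℝ, p = fun x => 1 - (μ x).real {0} := ⟨_, rfl⟩
  have hp : Tendsto p cofinite (nhds 0) := by
    rw [hpd]
    have := (tendsto_const_nhds (x := (1 : ℝ)) (f := cofinite)).sub hμ
    simpa using this
  have hp1 : ∀ x, p x ≤ 1 := by
    intro x
    rw [hpd]
    have : 0 ≤ (μ x).real {0} := measureReal_nonneg
    show 1 - (μ x).real {0} ≤ 1
    linarith
  obtain ⟨f, hfd⟩ : ∃ f : ℤ → ℝ, f = ({0}ᶜ : Set ℤ).indicator 1 := ⟨_, rfl⟩
  have hfm : Measurable f := measurable_from_top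
  obtain ⟨X, hXd⟩ : ∃ X : ℤ → (ℤ → ℤ) → ℝ, X = fun x ω => f (ω x) := ⟨_, rfl⟩
  have hXm : ∀ x, Measurable (X x) := by
    intro x
    rw [hXd]
    exact hfm.comp (measurable_pi_apply x)
  have hind : iIndepFun X (Measure.infinitePi μ) := by
    rw [hXd]
    exact iIndepFun_infinitePi (fun _ => hfm)
  have hf01 : ∀ u, f u = 0 ∨ f u = 1 := by
    intro u
    rw [hfd]
    by_cases hu : u ∈ ({0}ᶜ : Set ℤ)
    · right; rw [Set.indicator_of_mem hu]; rfl
    · left; rw [Set.indicator_of_notMem hu]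
  have hfi : ∀ x, Integrable f (μ x) := by
    intro x
    refine Integrable.of_bound hfm.aestronglyMeasurable 1 (Eventually.of_forall fun u => ?_)
    rcases hf01 u with h | h <;> rw [h] <;> simp
  have hint : ∀ x, ∫ u, f u ∂(μ x) = p x := by
    intro x
    rw [hfd, hpd, integral_indicator_one (by measurability)]
    show (μ x).real {0}ᶜ = 1 - (μ x).real {0}
    exact probReal_compl_eq_one_sub (by measurability)
  have hmgf : ∀ x, mgf (X x) (Measure.infinitePi μ) 1 ≤ Real.exp (2 * p x) := by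
    intro x
    have e1 : mgf (X x) (Measure.infinitePi μ) 1 = ∫ u, Real.exp (f u) ∂(μ x) := by
      unfold mgf
      rw [← Measure.infinitePi_map_eval μ x]
      rw [integral_map (measurable_pi_apply x).aemeasurable
        (Real.measurable_exp.comp hfm).aestronglyMeasurable]
      rw [hXd]
      simp only [one_mul]
    have e2 : ∀ u, Real.exp (f u) = 1 + (Real.exp 1 - 1) * f u := by
      intro u
      rcases hf01 u with h | h <;> rw [h] <;> simp
    have e3 : ∫ u, Real.exp (f u) ∂(μ x) = 1 + (Real.exp 1 - 1) * p x := by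
      simp only [e2]
      rw [integral_add (integrable_const _) ((hfi x).const_mul _), integral_const_mul, hint]
      simp
    rw [e1, e3]
    have hp0 : 0 ≤ p x := by
      rw [← hint]
      exact integral_nonneg fun u => by rcases hf01 u with h | h <;> rw [h] <;> simp
    have he : Real.exp 1 - 1 ≤ 2 := by linarith [Real.exp_one_lt_d9]
    calc 1 + (Real.exp 1 - 1) * p x ≤ 2 * p x + 1 := by nlinarith
      _ ≤ Real.exp (2 * p x) := Real.add_one_le_exp _
  obtain ⟨S, hSd⟩ : ∃ S : ℕ → (ℤ → ℤ) → ℝ, S = fun N : ℕ => ∑ x ∈ Icc (-(N : ℤ)) N, X x := ⟨_, rfl⟩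
  have hS : ∀ (N : ℕ) (ω : ℤ → ℤ), S N ω = ({x : ℤ | |x| ≤ (N : ℤ) ∧ ω x ≠ 0}.ncard : ℝ) := by
    intro N ω
    have e1 : {x : ℤ | |x| ≤ (N : ℤ) ∧ ω x ≠ 0} =
        (((Icc (-(N : ℤ)) N).filter (fun x => ω x ≠ 0) : Finset ℤ) : Set ℤ) := by
      ext x
      simp [abs_le]
    rw [e1, Set.ncard_coe_finset, hSd, hXd]
    simp only [Finset.sum_apply]
    rw [card_filter]
    push_cast
    refine sum_congr rfl fun x _ => ?_
    rw [hfd]
    by_cases hx : ω x = 0
    · simp [hx]
    · simp [hx]
  have hev : ∀ ε : ℝ, 0 < ε → ∀ᵐ ω ∂(Measure.infinitePi μ), ∀ᶠ N : ℕ in atTop,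
      S N ω < ε * N := by
    intro ε hε
    obtain ⟨N₀, hN₀⟩ := eventually_atTop.1 (psum hp1 hp (show 0 < ε / 4 by positivity))
    obtain ⟨A, hAd⟩ : ∃ A : ℕ → Set (ℤ → ℤ),
      A = fun N => if N₀ ≤ N then {ω | ε * N ≤ S N ω} else ∅ := ⟨_, rfl⟩
    have hle : ∀ N, (Measure.infinitePi μ) (A N) ≤ ENNReal.ofReal (Real.exp (-(ε / 2)) ^ N) := by
      intro N
      rw [hAd]
      by_cases hN : N₀ ≤ N
      · simp only [if_pos hN]
        have hbd : ∀ ω, |S N ω| ≤ 2 * N + 1 := by
          intro ω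
          rw [hSd]
          simp only [Finset.sum_apply]
          refine (abs_sum_le_sum_abs _ _).trans ?_
          have : ∑ x ∈ Icc (-(N : ℤ)) N, |X x ω| ≤ ∑ x ∈ Icc (-(N : ℤ)) N, (1 : ℝ) := by
            refine sum_le_sum fun x _ => ?_
            rw [hXd]
            rcases hf01 (ω x) with h | h
            · simp only [h]; simp
            · simp only [h]; simp
          refine this.trans ?_
          rw [sum_const, nsmul_eq_mul, mul_one, Int.card_Icc]
          have : ((N : ℤ) + 1 - -(N : ℤ)).toNat = 2 * N + 1 := by omega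
          rw [this]
          push_cast
          linarith
        have hSm : Measurable (S N) := by
          have e : S N = fun ω => ∑ x ∈ Icc (-(N : ℤ)) N, X x ω := by
            funext ω
            rw [hSd]
            simp only [Finset.sum_apply]
          rw [e]
          exact Finset.measurable_sum _ fun x _ => hXm x
        have hint2 : Integrable (fun ω => Real.exp (1 * S N ω)) (Measure.infinitePi μ) := by
          refine Integrable.of_bound ?_ (Real.exp (2 * N + 1)) (Eventually.of_forall fun ω => ?_)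
          · exact (Real.measurable_exp.comp (hSm.const_mul 1)).aestronglyMeasurable
          · rw [Real.norm_eq_abs, abs_of_pos (Real.exp_pos _)]
            apply Real.exp_le_exp.2
            rw [one_mul]
            exact (le_abs_self _).trans (hbd ω)
        have h1 := measure_ge_le_exp_mul_mgf (X := S N) (μ := Measure.infinitePi μ) (t := 1)
          (ε * N) (by norm_num) hint2
        have h2 : mgf (S N) (Measure.infinitePi μ) 1 ≤ Real.exp (2 * (ε / 4 * N)) := by
          rw [hSd]
          simp only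
          rw [hind.mgf_sum hXm]
          calc ∏ x ∈ Icc (-(N : ℤ)) N, mgf (X x) (Measure.infinitePi μ) 1
              ≤ ∏ x ∈ Icc (-(N : ℤ)) N, Real.exp (2 * p x) :=
                prod_le_prod (fun x _ => mgf_nonneg) fun x _ => hmgf x
            _ = Real.exp (2 * ∑ x ∈ Icc (-(N : ℤ)) N, p x) := by
                rw [← Real.exp_sum, mul_sum]
            _ ≤ _ := by
                apply Real.exp_le_exp.2
                linarith [hN₀ N hN]
        have h3 : (Measure.infinitePi μ).real {ω | ε * N ≤ S N ω} ≤ Real.exp (-(ε / 2)) ^ N := by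
          refine h1.trans ?_
          calc Real.exp (-1 * (ε * N)) * mgf (S N) (Measure.infinitePi μ) 1
              ≤ Real.exp (-1 * (ε * N)) * Real.exp (2 * (ε / 4 * N)) :=
                mul_le_mul_of_nonneg_left h2 (Real.exp_pos _).le
            _ = Real.exp (-(ε / 2)) ^ N := by
                rw [← Real.exp_add, ← Real.exp_nat_mul]
                congr 1
                ring
        rw [← ofReal_measureReal]
        exact ENNReal.ofReal_le_ofReal h3
      · simp only [if_neg hN, measure_empty]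
        simp
    have hsum : ∑' N, (Measure.infinitePi μ) (A N) ≠ ⊤ := by
      refine ne_top_of_le_ne_top ?_ (ENNReal.tsum_le_tsum hle)
      have h4 : Summable (fun N : ℕ => Real.exp (-(ε / 2)) ^ N) :=
        summable_geometric_of_lt_one (Real.exp_pos _).le (by
          rw [← Real.exp_zero]
          exact Real.exp_lt_exp.2 (by linarith))
      exact h4.tsum_ofReal_ne_top
    filter_upwards [ae_eventually_notMem hsum] with ω hω
    filter_upwards [hω, eventually_ge_atTop N₀] with N h1 h2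
    rw [hAd] at h1
    simp only [if_pos h2] at h1
    exact not_le.1 h1
  have hall : ∀ᵐ ω ∂(Measure.infinitePi μ), ∀ k : ℕ, ∀ᶠ N : ℕ in atTop,
      S N ω < (1 / ((k : ℝ) + 1)) * N :=
    ae_all_iff.2 fun k => hev _ (by positivity)
  filter_upwards [hall] with ω hω
  rw [Metric.tendsto_atTop]
  intro ε hε
  obtain ⟨k, hk⟩ := exists_nat_one_div_lt hε
  obtain ⟨N₁, hN₁⟩ := eventually_atTop.1 (hω k)
  refine ⟨max N₁ 1, fun N hN => ?_⟩
  have h1 := hN₁ N ((le_max_left _ _).trans hN)
  have h2 : (0 : ℝ) < N := by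
    have : 1 ≤ N := (le_max_right _ _).trans hN
    exact_mod_cast this
  rw [hS] at h1
  rw [Real.dist_eq, sub_zero, abs_of_nonneg (by positivity), div_lt_iff₀ h2]
  refine h1.trans_le ?_
  exact mul_le_mul_of_nonneg_right hk.le h2.le

theorem t_LLN : Pool.Agent.U29.DZ.S_LLN := by
  intro μ _ hμ
  exact lln μ hμ

end Pool.Agent.U689.DZ
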